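import Pool.Agent.Helper63.LT.Pat
import Pool.Agent.Helper63.LT.Map
import Pool.Agent.Helper63.LT.Grp
import Pool.Agent.Helper63.LT.Add
import Pool.Agent.Helper63.LT.Chain
import Pool.Agent.Helper63.LT.Norm
import Pool.Agent.Helper63.LT.Ind
import Pool.Agent.Helper63.LT.Field
import Pool.Agent.Helper63.LT.Fam2
import Pool.Agent.Helper63.LT2.Alm
import Pool.Agent.Helper18.CA.BVmain
import Pool.Agent.Helper44.BV.Mass

/-!
# Primitive points on the curves `y² = x³ + a x`

`EF a b` is the curve `y² = x³ + a x + b`, `AtF P x y` says that `P` is the affine point `(x, y)`,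
`Primitive a P p` says that `p` is a prime that does not divide `2 a` and that the reduction of `P`
modulo `p` generates the group of points of `y² = x³ + a x` over `ZMod p`.

`Admissible a P`: `P = (x, y)` has infinite order and none of `-a`, `x`, `a x` is of the form `r²`
or `-3 r²`. `Good a P`: for some `c > 0` and arbitrarily large `z` there are at least
`c z / (log z)²` primes `p ≤ z` with `Primitive a P p`. `Inequivalent a`: no quotient `a i / a j`,
`i ≠ j`, is of the form `r⁴` or `-4 r⁴`.

(1) For independent admissible points on inequivalent curves, `N` points in all, there are for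
arbitrarily large `z` at least `c z / (log z)²` primes `p ≤ z` modulo which at least
`(N - 160) / 4` of the `N` points generate the groups of points;
(2) if all these points are not good, there are at most `160` of them;
(3) at most `160` of any set of pairwise inequivalent curves have an admissible point that is not
good;
(4) `(-1, n)` is good on `y² = x³ - (n² + 1) x` for all but at most `160` of the `n ≥ 1` with
`n² + 1` not divisible by the fourth power of a prime.
-/

set_option autoImplicit false

namespace Pool.Agent.Results.MP_9b1c99_nt.AlmostAllCurves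

open WeierstrassCurve Pool.Agent.Helper10.SS Pool.Agent.Helper63.LT Pool.Agent.Helper63.LT2

theorem result :
    (∀ (m : ℕ) (a : Fin m → ℤ) (k : Fin m → ℕ) (P : ∀ i, Fin (k i) → (EF (a i : ℚ) 0).Point),
      Inequivalent a → (∀ i, LinearIndependent ℤ (P i)) → (∀ i j, Admissible (a i) (P i j)) →
      (∃ c : ℝ, 0 < c ∧ ∀ z0 : ℝ, ∃ z : ℝ, z0 ≤ z ∧ c * z / Real.log z ^ 2 ≤
        ({p : ℕ | p.Prime ∧ (p : ℝ) ≤ z ∧ ∑ i, k i ≤
          4 * {ij : Σ i, Fin (k i) | Primitive (a ij.1) (P ij.1 ij.2) p}.ncard + 160}.ncard : ℝ)) ∧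
      ((∀ i j, ¬ Good (a i) (P i j)) → ∑ i, k i ≤ 160)) ∧
    (∀ A : Set ℤ, Inequivalent (fun a : A => (a : ℤ)) →
      {a ∈ A | ∃ P, Admissible a P ∧ ¬ Good a P}.encard ≤ (160 : ℕ)) ∧
    {n : ℕ | ∃ hn : (n : ℤ) ≠ 0, (∀ q : ℕ, q.Prime → ¬ q ^ 4 ∣ n ^ 2 + 1) ∧
      ¬ Good (-((n : ℤ) ^ 2 + 1)) (pt n hn)}.encard ≤ (160 : ℕ) := by
  have hS : SpecialPlus2 := specialPlus2 Pool.Agent.Helper18.CA.bvMain Pool.Agent.Helper44.BV.mass
  have hM : MainM := mainM hS grp (chain addStep) normCount (indepL mapHom) fieldEx matching mapHom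
  have hC : MainA 160 := mainAC (mainIC hM patternInt)
  exact ⟨fun m a k P h1 h2 h3 =>
    ⟨hC m a k P h1 h2 h3, fun h4 => exceptional hC m a k P h1 h2 h3 h4⟩,
    fun A hA => curves hC A hA, family2 hC⟩

end Pool.Agent.Results.MP_9b1c99_nt.AlmostAllCurves
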