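import Pool.Agent.Helper63.LT.Pat
import Pool.Agent.Helper63.LT.Map
import Pool.Agent.Helper63.LT.Grp
import Pool.Agent.Helper63.LT.Add
import Pool.Agent.Helper63.LT.Chain
import Pool.Agent.Helper63.LT.Norm
import Pool.Agent.Helper63.LT.Ind
import Pool.Agent.Helper63.LT.Field
import Pool.Agent.Helper63.LT2.Fin
import Pool.Agent.Helper18.CA.BVmain
import Pool.Agent.Helper44.BV.Mass

/-!
# Primitive points on one curve `y² = x³ + a x` of large rank

`EF a b` is the curve `y² = x³ + a x + b`, `AtF P x y` says that `P` is the affine point `(x, y)`,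
`Primitive a P p` says that `p` is a prime that does not divide `2 a` and that the reduction of `P`
modulo `p` generates the group of points of `y² = x³ + a x` over `ZMod p`.

`Admissible a P`: `P = (x, y)` has infinite order and none of `-a`, `x`, `a x` is of the form `r²`
or `-3 r²`. `Good a P`: for some `c > 0` and arbitrarily large `z` there are at least
`c z / (log z)²` primes `p ≤ z` with `Primitive a P p`. `RankLe r H`: any `r + 1` elements of the
subgroup `H` are dependent.

The admissible points of `y² = x³ + a x` which are not good lie in `10 τ(|a|)` subgroups of rank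
at most `8`. For an admissible point `Q`, independent points `R₁, …, R_k` and `N ≥ 0` there are at
most `5 (2 N + 1) ^ 8` exceptional vectors `n` with `|nᵢ| ≤ N` such that for all other such vectors
the points `Q + 2 ∑ nᵢ Rᵢ` generate simultaneously modulo many primes, in particular are good.
-/

set_option autoImplicit false

namespace Pool.Agent.Results.MP_9b1c99_nt.HighRank

open WeierstrassCurve Pool.Agent.Helper10.SS Pool.Agent.Helper63.LT Pool.Agent.Helper63.LT2

theorem result : ∀ a : ℤ,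
    (∃ H : Fin (10 * a.natAbs.divisors.card) → AddSubgroup (EF (a : ℚ) 0).Point,
      (∀ j, RankLe 8 (H j)) ∧ ∀ P, Admissible a P → ¬ Good a P → ∃ j, P ∈ H j) ∧
    ∀ Q : (EF (a : ℚ) 0).Point, Admissible a Q → ∀ (k : ℕ) (R : Fin k → (EF (a : ℚ) 0).Point),
      LinearIndependent ℤ R → ∀ N : ℕ, ∃ S : Finset (Fin k → ℤ), S.card ≤ 5 * (2 * N + 1) ^ 8 ∧
        (∃ c : ℝ, 0 < c ∧ ∀ z0 : ℝ, ∃ z : ℝ, z0 ≤ z ∧ c * z / Real.log z ^ 2 ≤
          ({p : ℕ | p.Prime ∧ (p : ℝ) ≤ z ∧ ∀ n : Fin k → ℤ, (∀ i, |n i| ≤ N) → n ∉ S →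
            Primitive a (Q + (2 : ℤ) • ∑ i, n i • R i) p}.ncard : ℝ)) ∧
        ∀ n : Fin k → ℤ, (∀ i, |n i| ≤ N) → n ∉ S →
          Good a (Q + (2 : ℤ) • ∑ i, n i • R i) := by
  classical
  intro a
  have hS : SpecialPlus2 := specialPlus2 Pool.Agent.Helper18.CA.bvMain Pool.Agent.Helper44.BV.mass
  have hM : MainM := mainM hS grp (chain addStep) normCount (indepL mapHom) fieldEx matching mapHom
  refine ⟨?_, ?_⟩
  · by_cases ha : CurveOK a
    · exact all_cov hM patternInt ha
    · refine ⟨fun _ => ⊥, fun _ v hv hli => hli.ne_zero 0 (AddSubgroup.mem_bot.1 (hv 0)), ?_⟩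
      rintro P ⟨-, x, y, -, hxy⟩ -
      exact absurd (fun r => (hxy r).1) ha
  · intro Q hQ k R hR N
    obtain ⟨-, x, y, hA, hxy⟩ := hQ
    exact box_cov hM patternInt (ξ := x) (fun r => (hxy r).1) (fun r => ⟨(hxy r).2.1, (hxy r).2.2⟩)
      hR ⟨x, y, 1, hA, one_ne_zero, by ring⟩ N

end Pool.Agent.Results.MP_9b1c99_nt.HighRank
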